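import Mathlib

set_option autoImplicit false

namespace Pool.Agent.Results.MP_1ca5ad_gt.Pnum

open Set Filter Topology Function

/-- `C_p(X)`: continuous real functions with the topology of pointwise convergence -/
abbrev Cp (X : Type) [TopologicalSpace X] : Type := {f : X → ℝ // Continuous f}

/-- `Y` has a countable `F`-dense subset -/
def FSeparable (Y : Type) [TopologicalSpace Y] : Prop :=
  ∃ A : Set Y, A.Countable ∧ ∀ y : Y, y ∈ closure A ∧ ∀ A' ⊆ A, y ∈ closure A' →
    ∃ u : ℕ → Y, (∀ n, u n ∈ A') ∧ Tendsto u atTop (𝓝 y)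

theorem result (h : ∀ 𝒜 : Set (Set ℕ), Cardinal.mk 𝒜 ≤ Cardinal.aleph 1 →
    (∀ t ⊆ 𝒜, t.Finite → (⋂₀ t).Infinite) →
      ∃ S : Set ℕ, S.Infinite ∧ ∀ A ∈ 𝒜, (S \ A).Finite) :
    ∃ (X : Type) (_ : TopologicalSpace X), T35Space X ∧ FSeparable (Cp X) ∧
      ¬ FrechetUrysohnSpace (Cp X) := by
  classical
  have hI : Cardinal.mk (Cardinal.aleph 1).out = Cardinal.aleph 1 := Cardinal.mk_out _
  generalize (Cardinal.aleph 1).out = I at hI
  haveI : Uncountable I := Cardinal.aleph0_lt_mk_iff.1 (hI ▸ Cardinal.aleph0_lt_aleph_one)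
  obtain ⟨i⟩ : Nonempty (I ↪ ℝ) := by
    rw [← Cardinal.le_def, hI, Cardinal.mk_real]; exact Cardinal.aleph_one_le_continuum
  letI : TopologicalSpace I := ⊥
  haveI : DiscreteTopology I := ⟨rfl⟩
  have key : ∀ (y : Cp I) (A : Set (Cp I)),
      (∀ F : Finset I, ∃ g ∈ A, ∀ x ∈ F, g.1 x = y.1 x) → y ∈ closure A := fun y A hA => by
    refine mem_closure_iff.2 fun U hU hy => ?_
    obtain ⟨O, hO, rfl⟩ := isOpen_induced_iff.1 hU
    obtain ⟨F, u, h1, h2⟩ := isOpen_pi_iff.1 hO y.1 hy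
    obtain ⟨g, h3, h4⟩ := hA F
    exact ⟨g, h2 fun x hx => h4 x hx ▸ (h1 x hx).2, h3⟩
  refine ⟨I, inferInstance, inferInstance, ?_, fun hc => ?_⟩
  · let r : C(ℝ, ℝ) → Cp I := fun g => ⟨g ∘ i, continuous_of_discreteTopology⟩
    have hr : Continuous r := Continuous.subtype_mk
      (continuous_pi fun x => continuous_eval_const (i x)) _
    have hd : DenseRange r := fun y => key y _ fun F =>
      ⟨_, ⟨⟨fun t => (Lagrange.interpolate F i y.1).eval t, Polynomial.continuous _⟩, rfl⟩,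
        fun x hx => Lagrange.eval_interpolate_at_node _ i.injective.injOn hx⟩
    haveI := hd.separableSpace hr
    obtain ⟨A, hA, hA'⟩ := TopologicalSpace.exists_countable_dense (Cp I)
    refine ⟨A, hA, fun y => ⟨hA' y, fun B hB hy => ?_⟩⟩
    obtain ⟨e, rfl⟩ := (hA.mono hB).exists_eq_range (closure_nonempty_iff.1 ⟨y, hy⟩)
    let N : I × ℕ → Set ℕ := fun p =>
      {k | dist ((e k.unpair.1).1 p.1) (y.1 p.1) < 1 / ((p.2 : ℝ) + 1)}
    obtain ⟨S, hS, h1⟩ := h (range N) (Cardinal.mk_range_le.trans (by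
      simp [hI, Cardinal.aleph0_lt_aleph_one.le])) fun t ht htf => by
      obtain ⟨s, -, hs, rfl⟩ := htf.exists_subset_finite_image_eq (f := N) (s := univ)
        (by rwa [image_univ])
      obtain ⟨_, h2, k, rfl⟩ := mem_closure_iff.1 hy
        (⋂ p ∈ s, {g : Cp I | dist (g.1 p.1) (y.1 p.1) < 1 / ((p.2 : ℝ) + 1)})
        (hs.isOpen_biInter fun p _ => isOpen_lt
          (((continuous_apply p.1).comp continuous_subtype_val).dist continuous_const)
          continuous_const) (mem_iInter₂.2 fun p _ => by simp; positivity)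
      refine (infinite_range_of_injective (f := Nat.pair k)
        fun a b h => (Nat.pair_eq_pair.1 h).2).mono ?_
      rintro _ ⟨m, rfl⟩ _ ⟨p, hp, rfl⟩
      simpa [N] using mem_iInter₂.1 h2 p hp
    have hφ := Nat.nth_strictMono hS
    refine ⟨fun k => e (Nat.nth (· ∈ S) k).unpair.1, fun k => ⟨_, rfl⟩,
      tendsto_subtype_rng.2 (tendsto_pi_nhds.2 fun x => Metric.tendsto_nhds.2 fun ε hε => ?_)⟩
    obtain ⟨n, hn⟩ := exists_nat_one_div_lt hε
    filter_upwards [hφ.tendsto_atTop.eventually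
      (Nat.cofinite_eq_atTop ▸ (h1 _ ⟨(x, n), rfl⟩).compl_mem_cofinite)] with k hk
    exact lt_trans (by_contra fun h2 => hk ⟨Nat.nth_mem_of_infinite hS k, h2⟩) hn
  · obtain ⟨u, h1, h2⟩ := mem_closure_iff_seq_limit.1
      (key ⟨fun _ => 1, continuous_const⟩ {g | (support g.1).Countable} fun F =>
        ⟨⟨fun x => if x ∈ F then 1 else 0, continuous_of_discreteTopology⟩,
          F.countable_toSet.mono fun x hx => by_contra fun h => hx (if_neg h),
          fun x hx => if_pos hx⟩)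
    obtain ⟨x, hx⟩ : ∃ x, x ∉ ⋃ n, support (u n).1 := by_contra fun h3 =>
      not_countable_univ ((countable_iUnion h1).mono fun x _ => by_contra fun h4 => h3 ⟨x, h4⟩)
    have h3 := tendsto_pi_nhds.1 (tendsto_subtype_rng.1 h2) x
    have h4 : (fun n => (u n).1 x) = fun _ => 0 :=
      funext fun n => by_contra fun h5 => hx (mem_iUnion.2 ⟨n, h5⟩)
    rw [h4] at h3
    exact zero_ne_one (tendsto_nhds_unique tendsto_const_nhds h3)

end Pool.Agent.Results.MP_1ca5ad_gt.Pnum
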